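import Pool.Agent.helper57.LQ.SpecA

/-!
# Project lq (MP_ebc808_nt), row SQR: the squaring principle
-/

set_option autoImplicit false

open Finset PowerSeries

namespace Pool.Agent.LQ

theorem SQR_sup {N : ℕ} {g : FF} (hG : Gen N g) {K : ℕ} {f : FF} (hf : f ∈ VV N g K) :
    ∀ m : ℕ, coeff m f ≠ 0 → m.Coprime N := by
  induction hf using Submodule.span_induction with
  | mem x hx =>
    obtain ⟨i, -, hi, rfl⟩ := hx
    exact hG.sup i hi
  | zero =>
    intro m hm
    exact absurd (by simp) hm
  | add x y _ _ hx hy =>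
    intro m hm
    by_contra hc
    apply hm
    have h1 : coeff m x = 0 := by
      by_contra h
      exact hc (hx m h)
    have h2 : coeff m y = 0 := by
      by_contra h
      exact hc (hy m h)
    rw [map_add, h1, h2, add_zero]
  | smul c x _ hx =>
    intro m hm
    by_contra hc
    apply hm
    have h1 : coeff m x = 0 := by
      by_contra h
      exact hc (hx m h)
    rw [map_smul, h1, smul_zero]

theorem SQR (hALG : ALG_stmt) (hAF1 : AF1_stmt) (hAF2 : AF2_stmt) (hAF3 : AF3_stmt) : SQR_stmt := by
  intro N g hG K L hPsi A hA hAL f hf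
  ext n
  rw [map_zero]
  by_cases hn : n.Coprime N
  · have hAA : A * A ∈ TT N := ((hALG N hG.one_lt).2 A hA A hA).1
    have hTn : T n ∈ TT N := Submodule.subset_span ⟨n, hn, rfl⟩
    have h1 := hAF1 N hG.one_lt (A * A) hAA f n hn
    have h2 := hAF2 N hG.one_lt A hA (T n f)
    have h3 : T n f ∈ VV N g K := hAF3.2 N g hG (T n) hTn K f hf
    have h4 : A (Psi N (T n f)) = 0 := hAL _ (hPsi _ h3)
    rw [Module.End.mul_apply, Module.End.mul_apply, h2, h4, map_zero] at h1
    exact h1
  · by_contra hne
    exact hn (hAF3.1 N A hA (A f) (hAF3.1 N A hA f (SQR_sup hG hf)) n hne)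

end Pool.Agent.LQ
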