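import Pool.Agent.helper57.LQ.SpecB
import Pool.Agent.helper59.OD.V1

/-!
# Project lq (MP_ebc808_nt), row TGR: the series `tt` and `DD`
-/

set_option autoImplicit false

open Finset PowerSeries

namespace Pool.Agent.LQ

theorem TGR_supp (d : ℕ) (hd : d ≠ 0) (i m : ℕ) (F : FF)
    (h : coeff m ((X : FF) ^ i * PowerSeries.expand d hd F) ≠ 0) : m % d = i % d := by
  rw [PowerSeries.coeff_X_pow_mul'] at h
  by_cases him : i ≤ m
  · rw [if_pos him, PowerSeries.coeff_expand] at h
    by_cases hdv : d ∣ m - i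
    · obtain ⟨k, hk⟩ := hdv
      have : m = i + d * k := by omega
      rw [this, Nat.add_mul_mod_self_left]
    · rw [if_neg hdv] at h
      exact absurd rfl h
  · rw [if_neg him] at h
    exact absurd rfl h

theorem TGR_DDe : DD = X * PowerSeries.expand 8 (by norm_num) (Pool.Agent.helper81.EE ^ 3) := by
  have h := Pool.Agent.helper12.PE.pow_eq_expand (Pool.Agent.helper81.EE ^ 3) 3
  rw [DD_def, show (24 : ℕ) = 3 * 2 ^ 3 by norm_num, pow_mul, h]
  rfl

theorem TGR_E3 (m : ℕ) : coeff m (Pool.Agent.helper81.EE ^ 3) =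
    open Classical in if ∃ s : ℕ, m = s * (s + 1) / 2 then 1 else 0 := by
  classical
  rw [(Pool.Agent.helper81.EE_cube_cg m).coeff_eq (show m < 2 * m + 1 by omega), map_sum]
  by_cases h : ∃ s : ℕ, m = s * (s + 1) / 2
  · rw [if_pos h]
    obtain ⟨s, hs⟩ := h
    have hle : ∀ t : ℕ, t ≤ t * (t + 1) / 2 := by
      intro t
      rw [Nat.le_div_iff_mul_le (by norm_num)]
      nlinarith [Nat.zero_le t, sq_nonneg ((t : ℤ) - 1)]
    rw [Finset.sum_eq_single s]
    · rw [coeff_X_pow, if_pos hs]
    · intro t _ ht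
      rw [coeff_X_pow, if_neg]
      intro h1
      apply ht
      have e1 : t * (t + 1) = s * (s + 1) := by
        have h2 : 2 ∣ t * (t + 1) := (Nat.even_mul_succ_self t).two_dvd
        have h3 : 2 ∣ s * (s + 1) := (Nat.even_mul_succ_self s).two_dvd
        rw [hs] at h1
        omega
      rcases lt_trichotomy t s with h4 | h4 | h4
      · nlinarith
      · exact h4
      · nlinarith
    · intro h1
      exfalso
      apply h1
      rw [Finset.mem_range]
      have := hle s
      omega
  · rw [if_neg h]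
    refine Finset.sum_eq_zero fun s _ => ?_
    rw [coeff_X_pow, if_neg]
    exact fun h1 => h ⟨s, h1⟩

theorem TGR_83 (F : FF) : PowerSeries.expand 8 (by norm_num) (PowerSeries.expand 3 (by norm_num) F) =
    PowerSeries.expand 24 (by norm_num) F := by
  ext n
  rw [PowerSeries.coeff_expand, PowerSeries.coeff_expand, PowerSeries.coeff_expand]
  by_cases h : 24 ∣ n
  · obtain ⟨k, rfl⟩ := h
    have e1 : 24 * k / 8 = 3 * k := by omega
    have e2 : 3 * k / 3 = k := by omega
    have e3 : 24 * k / 24 = k := by omega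
    rw [if_pos (by omega), e1, if_pos (by omega), if_pos (by omega), e2, e3]
  · rw [if_neg h]
    by_cases h8 : 8 ∣ n
    · rw [if_pos h8, if_neg (by omega)]
    · rw [if_neg h8]

theorem TGR_p8 (G : FF) : G ^ 8 = PowerSeries.expand 8 (by norm_num) G :=
  Pool.Agent.helper12.PE.pow_eq_expand G 3

theorem TGR_ex3 : ex 3 DD = tt ^ 3 := by
  have h1 : ex 3 DD = X ^ 3 * (PowerSeries.expand 3 (by norm_num) Pool.Agent.helper81.EE) ^ 24 := by
    rw [ex_eq (by norm_num : (3 : ℕ) ≠ 0), DD_def, map_mul, map_pow, PowerSeries.expand_X]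
  have h2 : (PowerSeries.expand 3 (by norm_num) Pool.Agent.helper81.EE : FF) ^ 24 =
      ((PowerSeries.expand 3 (by norm_num) Pool.Agent.helper81.EE) ^ 8) ^ 3 := by
    rw [← pow_mul]
  rw [h1, h2, TGR_p8, TGR_83]
  unfold tt
  rw [mul_pow]

theorem TGR (_hEXP : EXP_stmt) : TGR_stmt := by
  classical
  have hv : HahnSeries.ofPowerSeries ℤ (ZMod 2) tt = Pool.Agent.EP.vvx := by
    unfold tt Pool.Agent.EP.vvx
    rw [map_mul, HahnSeries.ofPowerSeries_X]
  refine ⟨?_, ?_, ?_, ?_, ?_, hv⟩
  · intro n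
    have h1 := Pool.Agent.OD.V1 (n : ℤ)
    rw [← hv, HahnSeries.ofPowerSeries_apply_coeff] at h1
    rw [h1]
    refine if_congr ?_ rfl rfl
    constructor
    · rintro ⟨u, hu, h⟩
      exact ⟨u, hu, by exact_mod_cast h⟩
    · rintro ⟨u, hu, h⟩
      exact ⟨u, hu, by exact_mod_cast h⟩
  · intro n
    rw [TGR_DDe]
    rcases n with _ | k
    · rw [PowerSeries.coeff_zero_X_mul, if_neg]
      rintro ⟨v, hv, h⟩
      have : v = 0 := by
        rcases Nat.eq_zero_or_pos v with h0 | h0
        · exact h0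
        · have := Nat.pow_pos (n := 2) h0
          omega
      rw [this] at hv
      exact absurd hv (by decide)
    · rw [PowerSeries.coeff_succ_X_mul, PowerSeries.coeff_expand, TGR_E3]
      by_cases h : ∃ v : ℕ, Odd v ∧ k + 1 = v ^ 2
      · rw [if_pos h]
        obtain ⟨v, ⟨s, rfl⟩, hv⟩ := h
        obtain ⟨r, hr⟩ := (Nat.even_mul_succ_self s).two_dvd
        have hk : k = 8 * r := by nlinarith
        rw [if_pos ⟨r, hk⟩, if_pos]
        refine ⟨s, ?_⟩
        rw [hr, hk]
        omega
      · rw [if_neg h]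
        by_cases h8 : 8 ∣ k
        · rw [if_pos h8, if_neg]
          rintro ⟨s, hs⟩
          apply h
          obtain ⟨r, hr⟩ := (Nat.even_mul_succ_self s).two_dvd
          obtain ⟨q, hq⟩ := h8
          refine ⟨2 * s + 1, ⟨s, rfl⟩, ?_⟩
          have : r = q := by
            rw [hr, hq] at hs
            omega
          rw [hq, ← this]
          nlinarith
        · rw [if_neg h8]
  · exact TGR_ex3
  · intro i m hm
    have h1 : tt ^ i = X ^ i * PowerSeries.expand 24 (by norm_num) (Pool.Agent.helper81.EE ^ i) := by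
      unfold tt
      rw [mul_pow, map_pow]
    rw [h1] at hm
    exact TGR_supp 24 _ i m _ hm
  · intro i m hm
    have h1 : DD ^ i = X ^ i * PowerSeries.expand 8 (by norm_num)
        ((Pool.Agent.helper81.EE ^ 3) ^ i) := by
      rw [TGR_DDe, mul_pow]
      simp only [map_pow]
    rw [h1] at hm
    exact TGR_supp 8 _ i m _ hm

end Pool.Agent.LQ
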